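import Pool.Agent.helper33.PG.Spec

namespace Pool.Agent.PG

open Polynomial Finset

theorem PRD (hEXQ : EXQ_stmt) : PRD_stmt := by
  intro N s P x hN hs hsN hx hP
  have h1 : ∀ p ∈ P, ((p ^ (2 ^ N + 1).factorization p : ℕ) : ℝ) ≤ 2 ^ ((x + 6 / s) * N + 4 * s + 2) := by
    intro p hp
    obtain ⟨hpr, hpx⟩ := hP p hp
    rw [Nat.cast_pow]
    exact hEXQ N s p _ x hN hs hsN hpr.one_lt (Nat.ordProj_dvd _ _) hx hpx
  rw [Nat.cast_prod, mul_comm, Real.rpow_mul (by norm_num), Real.rpow_natCast, ← Finset.prod_const]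
  exact Finset.prod_le_prod (fun _ _ => Nat.cast_nonneg _) h1

end Pool.Agent.PG
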